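import Pool.Agent.W957.CH.Stm2

/-! Project CH (MP_d275fd_co, S11629): the part PRC. -/

set_option autoImplicit false

namespace Pool.Agent.W15.CH

open Finset Pool.Agent.W957.CH

section

variable {V : Type} [DecidableEq V] {X : Cx V} {n : ℕ} {c : ℕ → V} {τ σ N : ℕ}
  {x y : ℕ → ℕ} {K : ℕ → Finset V}

theorem x_lt (h : Lad X n c τ N x y K) (a b : ℕ) (hab : a < b) (hb : b ≤ N) :
    x a + τ < x b := by
  induction b with
  | zero => omega
  | succ b ih =>
    have h1 := h.xi b (by omega)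
    rcases Nat.lt_or_ge a b with h2 | h2
    · have := ih h2 (by omega)
      omega
    · have : a = b := by omega
      subst this
      exact h1

theorem y_lt (h : Lad X n c τ N x y K) (a b : ℕ) (hab : a < b) (hb : b ≤ N) :
    y b + τ < y a := by
  induction b with
  | zero => omega
  | succ b ih =>
    have h1 := h.yd b (by omega)
    rcases Nat.lt_or_ge a b with h2 | h2
    · have := ih h2 (by omega)
      omega
    · have : a = b := by omega
      subst this
      exact h1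

theorem x_le (h : Lad X n c τ N x y K) (a b : ℕ) (hab : a ≤ b) (hb : b ≤ N) :
    x a ≤ x b := by
  rcases Nat.lt_or_ge a b with h2 | h2
  · have := x_lt h a b h2 hb
    omega
  · have : a = b := by omega
    rw [this]

theorem y_le (h : Lad X n c τ N x y K) (a b : ℕ) (hab : a ≤ b) (hb : b ≤ N) :
    y b ≤ y a := by
  rcases Nat.lt_or_ge a b with h2 | h2
  · have := y_lt h a b h2 hb
    omega
  · have : a = b := by omega
    rw [this]

open Classical in
/-- the final part -/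
theorem finA (h3 : S_GR) (h4 : S_X) (h6 : S_PCS) (h8 : S_WNB) {r s w1 w2 : ℕ}
    (hS : Set2 X n c τ σ) (hL : Lad X n c τ N x y K) (hrs : r + σ + 3 ≤ s) (hs : s ≤ N)
    (yw : y 0 < w1) (ww : w1 < w2) (wn : w2 < n) (sw : 8 * (w2 - w1) ≤ n)
    (l : List V) (Rm : Finset ℕ) (E : List V) (hR : Rer X n c l Rm E)
    (hw : ∀ i ∈ win x y r s, i ∈ Rm)
    (hRm : ∀ i ∈ Rm, (x 0 ≤ i ∧ i ≤ x N) ∨ (y N ≤ i ∧ i ≤ y 0) ∨ (w1 < i ∧ i < w2))
    (hE : ∀ e ∈ E, ∃ K0, Comp X n c K0 ∧ e ∈ K0 ∧ ∀ i ∈ win x y r s, ¬ At X c K0 i)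
    (hC2 : ∀ K K' x, Comp X n c K → Comp X n c K' → x ∈ K → x ∈ K' → K = K') :
    ∃ Z : Finset ℕ, 3 ≤ Z.card ∧ ∀ z ∈ Z, w1 < z ∧ z < w2 ∧
    ∃ M, Comp X n c M ∧ At X c M z ∧ ∃ i ∈ win x y r s, At X c M i := by
  have xs := x_le hL r s (by omega) hs
  have x0r := x_le hL 0 r (by omega) (by omega)
  have xsN := x_le hL s N hs le_rfl
  have ys := y_le hL r s (by omega) hs
  have y0r := y_le hL 0 r (by omega) (by omega)
  have ysN := y_le hL s N hs le_rfl
  have hxy := hL.xy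
  have hn1 := hS.Ln
  have hbig := hS.ok.big
  have hL1 := hL.sx
  have hL2 := hL.sy
  have hy0 := hL.yn
  -- positions of the window
  have hwin : ∀ i ∈ win x y r s, (x r < i ∧ i < x s) ∨ (y s < i ∧ i < y r) := by
    intro i hi
    simpa [win] using hi
  have hcl : ∀ i ∈ win x y r s, Cl X n c i := by
    intro i hi
    rcases hwin i hi with h | h
    · exact hL.cx i (by omega) (by omega)
    · exact hL.cy i (by omega) (by omega)
  obtain ⟨hc1, hc2, hc3⟩ := h8 V X n c τ σ N x y K r s hS hL hrs hs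
  obtain ⟨hp1, hp2, -, -⟩ := h6 V X n c (win x y r s) hS.ok hS.good hcl
  set P := pcs X n c (win x y r s) with hP
  have hcard : 4 * Rm.card ≤ 3 * n := by
    have hsub : Rm ⊆ Icc (x 0) (x N) ∪ Icc (y N) (y 0) ∪ Ioo w1 w2 := by
      intro i hi
      rcases hRm i hi with h | h | h
      · simp [h]
      · simp [h]
      · simp [h]
    have e1 := card_le_card hsub
    have e2 := card_union_le (Icc (x 0) (x N) ∪ Icc (y N) (y 0)) (Ioo w1 w2)
    have e3 := card_union_le (Icc (x 0) (x N)) (Icc (y N) (y 0))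
    rw [Nat.card_Icc, Nat.card_Icc] at e3
    rw [Nat.card_Ioo] at e2
    omega
  obtain ⟨-, -, -, hg⟩ := h3 V X n c l Rm E hS.ok hS.good hR hcard
  obtain ⟨n', c', hG', himg⟩ := hg (by omega)
  have hPA : P ⊆ X.A := by
    rw [hP]
    exact filter_subset _ _
  have hdis : Disjoint P (img n' c') := by
    rw [himg, Finset.disjoint_left]
    intro v hv hv2
    rw [List.mem_toFinset, hR.mem] at hv2
    rw [hP, pcs, mem_filter] at hv
    obtain ⟨hvA, hv⟩ := hv
    rcases hv2 with ⟨i, hi, hiR, rfl⟩ | hvE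
    · rcases hv with ⟨j, hj, hij⟩ | ⟨M, hM, hvM, -⟩
      · have hjw := hcl j hj
        have := hS.good.cr.inj i j hi hjw.1 hij
        subst this
        exact hiR (hw _ hj)
      · have := hM.2.2.1
        rw [Finset.disjoint_left] at this
        exact this hvM (by rw [img]; exact mem_image_of_mem _ (mem_range.mpr hi))
    · rcases hv with ⟨j, hj, hij⟩ | ⟨M, hM, hvM, j, hj, hMj⟩
      · apply (hR.EA v hvE).2
        rw [hij, img]
        exact mem_image_of_mem _ (mem_range.mpr (hcl j hj).1)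
      · obtain ⟨K0, hK0, hvK, hK02⟩ := hE v hvE
        have := hC2 M K0 v hM hK0 hvM hvK
        subst this
        exact hK02 j hj hMj
  have hPB : (P ∩ X.B).card = 0 := by
    rw [card_eq_zero]
    exact Finset.disjoint_iff_inter_eq_empty.mp hp1
  refine ⟨(Ioo w1 w2).filter (fun z => c z ∈ nbr X.G X.A P), ?_, ?_⟩
  · by_contra hlt
    have hlt' : ((Ioo w1 w2).filter (fun z => c z ∈ nbr X.G X.A P)).card ≤ 2 := by omega
    have hsub : nbr X.G X.A P \ img n' c' ⊆
        (((Icc (x 0) (x N) ∪ Icc (y N) (y 0)).filter (fun j => c j ∈ nbr X.G X.A P)) ∪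
          (Ioo w1 w2).filter (fun z => c z ∈ nbr X.G X.A P)).image c := by
      intro v hv
      rw [mem_sdiff] at hv
      obtain ⟨hv1, hv2⟩ := hv
      obtain ⟨j, hj, -, hvj, -⟩ := (hp2 v).mp hv1
      rw [mem_image]
      refine ⟨j, ?_, hvj.symm⟩
      have hjR : j ∈ Rm := by
        by_contra hjR
        apply hv2
        rw [himg, List.mem_toFinset, hR.mem]
        exact Or.inl ⟨j, hj, hjR, hvj.symm⟩
      rw [mem_union, mem_filter, mem_filter, ← hvj]
      rcases hRm j hjR with h | h | h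
      · exact Or.inl ⟨by simp [h], hv1⟩
      · exact Or.inl ⟨by simp [h], hv1⟩
      · exact Or.inr ⟨by simp [h], hv1⟩
    have e1 : (nbr X.G X.A P \ img n' c').card ≤ 4 * τ + 6 := by
      refine (card_le_card hsub).trans (card_image_le.trans ?_)
      refine (card_union_le _ _).trans ?_
      have hc2' : ((Icc (x 0) (x N) ∪ Icc (y N) (y 0)).filter
        (fun j => c j ∈ nbr X.G X.A P)).card ≤ 4 * τ + 4 := by
        convert hc2
      omega
    have e2 := h4 V X n' c' P (4 * τ + 8) hS.ok hG' hc1 hPA hdis (by omega)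
    have e3 : (nbr X.G X.A P).card = (nbr X.G X.A P \ img n' c').card +
        (nbr X.G X.A P ∩ img n' c').card := (card_sdiff_add_card_inter _ _).symm
    rw [bb] at hc3
    omega
  · intro z hz
    rw [mem_filter, mem_Ioo] at hz
    obtain ⟨⟨hz1, hz2⟩, hz3⟩ := hz
    refine ⟨hz1, hz2, ?_⟩
    obtain ⟨j, hj, hjw, hzj, hcase⟩ := (hp2 (c z)).mp hz3
    have hzj' := hS.good.cr.inj z j (by omega) hj hzj
    subst hzj'
    rcases hcase with ⟨i, hi, hcons⟩ | ⟨M, hM, hMz, i, hi, hMi⟩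
    · exfalso
      have := hwin i hi
      unfold Pool.Agent.W957.CH.cons at hcons
      omega
    · exact ⟨M, hM, hMz, i, hi, hMi⟩

theorem ear_nodup {a b : ℕ} {R : List V} (h : Ear X n c a b R) : R.Nodup := by
  obtain ⟨⟨u, v, h1, -⟩, -⟩ := h
  exact h1.1.1

/-- CH-PRC -/
theorem t_PRC (h1 : S_PR3) (h2 : S_PR4) (h3 : S_GR) (h4 : S_X) (h5 : S_PC0) (h6 : S_PCS)
    (h7 : S_WLOC) (h8 : S_WNB) (h9 : S_4A) : S_PRC := by
  intro V _ X n c τ σ N x y K r s p l1 l2 w1 w2 L1 L2 hS hL hr hrs hsp hpN hO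
  obtain ⟨-, hC2, -, hC4⟩ := h5 V X n c hS.ok hS.good
  have hxy := hL.xy
  have hL1 := hL.sx
  have hL2 := hL.sy
  have hy0 := hL.yn
  have hyw := hO.yw
  have hww := hO.ww
  have hwn := hO.wn
  have xs := x_le hL r s (by omega) (by omega)
  have x01 := x_le hL 0 (r - 1) (by omega) (by omega)
  have x12 := x_lt hL (r - 1) r (by omega) (by omega)
  have x23 := x_lt hL s (s + 1) (by omega) (by omega)
  have x34 := x_lt hL (s + 1) p (by omega) (by omega)
  have x4N := x_le hL p N hpN le_rfl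
  have ys := y_le hL r s (by omega) (by omega)
  have y01 := y_le hL 0 (r - 1) (by omega) (by omega)
  have y12 := y_lt hL (r - 1) r (by omega) (by omega)
  have y23 := y_lt hL s (s + 1) (by omega) (by omega)
  have y34 := y_lt hL (s + 1) p (by omega) (by omega)
  have y4N := y_le hL p N hpN le_rfl
  have hwin : ∀ i ∈ win x y r s, (x r < i ∧ i < x s) ∨ (y s < i ∧ i < y r) := by
    intro i hi
    simpa [win] using hi
  -- rungs and outgoing components are not attached to the window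
  have hKw : ∀ q, q = r - 1 ∨ q = s + 1 → ∀ i ∈ win x y r s, ¬ At X c (K q) i := by
    intro q hq i hi hA
    have hqN : q ≤ N := by omega
    obtain ⟨k1, k2, k3⟩ := hL.K q hqN
    have hxq0 := x_le hL 0 q (by omega) hqN
    have hxqN := x_le hL q N hqN le_rfl
    have := h7 V X n c τ σ N x y K r s i (x q) (K q) hS hL (by omega) (by omega) hi k1 hA k2
      (Or.inl ⟨hxq0, hxqN⟩)
    rcases hq with rfl | rfl <;> omega
  have hLw : ∀ l L, Bey x y N p l → Comp X n c L → At X c L l →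
      ∀ i ∈ win x y r s, ¬ At X c L i := by
    intro l L hb hLc hLl i hi hA
    unfold Bey at hb
    have hx0p := x_le hL 0 p (by omega) hpN
    have hy0p := y_le hL 0 p (by omega) hpN
    have := h7 V X n c τ σ N x y K r s i l L hS hL (by omega) (by omega) hi hLc hA hLl
      (by omega)
    omega
  -- distinctness
  have hKK : K (r - 1) ≠ K (s + 1) := by
    intro he
    obtain ⟨k1, k2, k3⟩ := hL.K (r - 1) (by omega)
    obtain ⟨m1, m2, m3⟩ := hL.K (s + 1) (by omega)
    rw [← he] at m2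
    have := h9 V X n c τ σ (x (r - 1)) (x (s + 1)) (K (r - 1)) hS (by omega) (by omega)
      (fun i hi1 hi2 => hL.cx i (by omega) (by omega)) k1 k2 m2
    omega
  have hKL : ∀ q, q = r - 1 ∨ q = s + 1 → ∀ l L, Bey x y N p l → Comp X n c L → At X c L l →
      K q ≠ L := by
    intro q hq l L hb hLc hLl he
    have hqN : q ≤ N := by omega
    obtain ⟨k1, k2, k3⟩ := hL.K q hqN
    have hxq0 := x_le hL 0 q (by omega) hqN
    have hyq0 := y_le hL 0 q (by omega) hqN
    have hxqp := x_lt hL q p (by omega) hpN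
    have hyqp := y_lt hL q p (by omega) hpN
    rw [← he] at hLl
    rcases hb with hb | hb
    · have := h9 V X n c τ σ (x q) l (K q) hS (by omega) (by omega)
        (fun i hi1 hi2 => hL.cx i (by omega) (by omega)) k1 k2 hLl
      omega
    · have := h9 V X n c τ σ l (y q) (K q) hS (by omega) (by omega)
        (fun i hi1 hi2 => hL.cy i (by omega) (by omega)) k1 hLl k3
      omega
  -- ordered version
  obtain ⟨l, l', L, L', e, e', hll, hb, hb', hLc, hLc', hLl, hLl', hLe, hLe', hne, hee⟩ :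
      ∃ (l l' : ℕ) (L L' : Finset V) (e e' : ℕ), l < l' ∧ Bey x y N p l ∧ Bey x y N p l' ∧
      Comp X n c L ∧ Comp X n c L' ∧ At X c L l ∧ At X c L' l' ∧ At X c L e ∧ At X c L' e' ∧
      L ≠ L' ∧ ((e = w1 ∧ e' = w2) ∨ (e = w2 ∧ e' = w1)) := by
    rcases Nat.lt_or_ge l1 l2 with h | h
    · exact ⟨l1, l2, L1, L2, w1, w2, h, hO.b1, hO.b2, hO.C1, hO.C2, hO.a1, hO.a2, hO.at1,
        hO.at2, hO.ne, Or.inl ⟨rfl, rfl⟩⟩
    · have := hO.ll
      exact ⟨l2, l1, L2, L1, w2, w1, by omega, hO.b2, hO.b1, hO.C2, hO.C1, hO.a2, hO.a1, hO.at2,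
        hO.at1, hO.ne.symm, Or.inr ⟨rfl, rfl⟩⟩
  obtain ⟨k1, k2, k3⟩ := hL.K (r - 1) (by omega)
  obtain ⟨m1, m2, m3⟩ := hL.K (s + 1) (by omega)
  obtain ⟨R1, hR1, hR1'⟩ := hC4 _ _ _ k1 k2 k3
  obtain ⟨R2, hR2, hR2'⟩ := hC4 _ _ _ m1 m2 m3
  obtain ⟨Q1, hQ1, hQ1'⟩ := hC4 _ _ _ hLc hLl hLe
  obtain ⟨Q2, hQ2, hQ2'⟩ := hC4 _ _ _ hLc' hLl' hLe'
  have hdj : ∀ (A B : Finset V) (R R' : List V), Comp X n c A → Comp X n c B → A ≠ B →
      (∀ x ∈ R, x ∈ A) → (∀ x ∈ R', x ∈ B) → R.Disjoint R' := by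
    intro A B R R' hA hB hAB h h' v hv hv'
    exact hAB (hC2 A B v hA hB (h v hv) (h' v hv'))
  have d1 := hdj _ _ _ _ k1 m1 hKK hR1' hR2'
  have d2 := hdj _ _ _ _ k1 hLc (hKL _ (Or.inl rfl) l L hb hLc hLl) hR1' hQ1'
  have d3 := hdj _ _ _ _ k1 hLc' (hKL _ (Or.inl rfl) l' L' hb' hLc' hLl') hR1' hQ2'
  have d4 := hdj _ _ _ _ m1 hLc (hKL _ (Or.inr rfl) l L hb hLc hLl) hR2' hQ1'
  have d5 := hdj _ _ _ _ m1 hLc' (hKL _ (Or.inr rfl) l' L' hb' hLc' hLl') hR2' hQ2'
  have d6 := hdj _ _ _ _ hLc hLc' hne hQ1' hQ2'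
  have cK : ∀ v ∈ R1, ∃ K0, Comp X n c K0 ∧ v ∈ K0 ∧ ∀ i ∈ win x y r s, ¬ At X c K0 i :=
    fun v hv => ⟨K (r - 1), k1, hR1' v hv, hKw _ (Or.inl rfl)⟩
  have cM : ∀ v ∈ R2, ∃ K0, Comp X n c K0 ∧ v ∈ K0 ∧ ∀ i ∈ win x y r s, ¬ At X c K0 i :=
    fun v hv => ⟨K (s + 1), m1, hR2' v hv, hKw _ (Or.inr rfl)⟩
  have cL : ∀ v ∈ Q1, ∃ K0, Comp X n c K0 ∧ v ∈ K0 ∧ ∀ i ∈ win x y r s, ¬ At X c K0 i :=
    fun v hv => ⟨L, hLc, hQ1' v hv, hLw l L hb hLc hLl⟩
  have cL' : ∀ v ∈ Q2, ∃ K0, Comp X n c K0 ∧ v ∈ K0 ∧ ∀ i ∈ win x y r s, ¬ At X c K0 i :=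
    fun v hv => ⟨L', hLc', hQ2' v hv, hLw l' L' hb' hLc' hLl'⟩
  have frx : ∀ a b, x 0 ≤ a → b ≤ x N → Free X.G n c a b := fun a b ha hb i hi1 hi2 =>
    (hL.cx i (by omega) (by omega)).2.2.1
  have fry : ∀ a b, y N ≤ a → b ≤ y 0 → Free X.G n c a b := fun a b ha hb i hi1 hi2 =>
    (hL.cy i (by omega) (by omega)).2.2.1
  have caseA : l' < y (s + 1) → x (s + 1) < l → Free X.G n c l l' →
      (x N < l ∨ l' < y N) → ∃ Z : Finset ℕ, 3 ≤ Z.card ∧ ∀ z ∈ Z, w1 < z ∧ z < w2 ∧
      ∃ M, Comp X n c M ∧ At X c M z ∧ ∃ i ∈ win x y r s, At X c M i := by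
    intro hA1 hA2 hA3 hA4
    obtain ⟨ll, hR⟩ := h2 V X n c (x (r - 1)) (x (s + 1)) l l' (y (s + 1)) (y (r - 1)) w1 w2
      e e' R1 R2 Q1 Q2 hS.good (by omega) hA2 hll hA1 (by omega) (by omega) hww hwn
      (frx _ _ x01 (by omega)) hA3 (fry _ _ (by omega) (by omega)) hO.fr hR1 hR2 hQ1 hQ2 hee
      (by
        rw [List.nodup_append', List.nodup_append', List.nodup_append']
        refine ⟨⟨⟨ear_nodup hR1, ear_nodup hR2, d1⟩, ear_nodup hQ1, ?_⟩, ear_nodup hQ2, ?_⟩
        · rw [List.disjoint_append_left]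
          exact ⟨d2, d4⟩
        · rw [List.disjoint_append_left, List.disjoint_append_left]
          exact ⟨⟨d3, d5⟩, d6⟩)
    refine finA h3 h4 h6 h8 hS hL hrs (by omega) hyw hww hwn hO.sw ll _ _ hR ?_ ?_ ?_ hC2
    · intro i hi
      have := hwin i hi
      simp only [mem_union, mem_Ioo]
      omega
    · intro i hi
      simp only [mem_union, mem_Ioo] at hi
      unfold Bey at hb hb'
      omega
    · intro v hv
      rw [List.mem_append, List.mem_append, List.mem_append] at hv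
      rcases hv with ((hv | hv) | hv) | hv
      · exact cK v hv
      · exact cM v hv
      · exact cL v hv
      · exact cL' v hv
  rcases hb with hb0 | hb0
  · rcases hb' with hb1 | hb1
    · exact caseA (by omega) (by omega) (frx _ _ (by omega) (by omega)) (by omega)
    · obtain ⟨ll, hR⟩ := h1 V X n c (x (r - 1)) l l' (y (r - 1)) w1 w2
        e e' R1 Q1 Q2 hS.good (by omega) hll (by omega) (by omega) hww hwn
        (frx _ _ x01 (by omega)) (fry _ _ (by omega) (by omega)) hO.fr hR1 hQ1 hQ2 hee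
        (by
          rw [List.nodup_append', List.nodup_append']
          refine ⟨⟨ear_nodup hR1, ear_nodup hQ1, d2⟩, ear_nodup hQ2, ?_⟩
          rw [List.disjoint_append_left]
          exact ⟨d3, d6⟩)
      refine finA h3 h4 h6 h8 hS hL hrs (by omega) hyw hww hwn hO.sw ll _ _ hR ?_ ?_ ?_ hC2
      · intro i hi
        have := hwin i hi
        simp only [mem_union, mem_Ioo]
        omega
      · intro i hi
        simp only [mem_union, mem_Ioo] at hi
        omega
      · intro v hv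
        rw [List.mem_append, List.mem_append] at hv
        rcases hv with (hv | hv) | hv
        · exact cK v hv
        · exact cL v hv
        · exact cL' v hv
  · rcases hb' with hb1 | hb1
    · omega
    · exact caseA (by omega) (by omega) (fry _ _ (by omega) (by omega)) (by omega)

end

end Pool.Agent.W15.CH
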